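import Pool.Agent.Y672.DM.Asm

/-!
# MP_17f4cb_nt: a cuspidal representation of `PGL₂` all of whose quadratic twists vanish at the centre

There is a Hecke–Maass cusp form `u` of weight `0` and trivial character on `Γ₀(25)` (so it generates
an irreducible cuspidal automorphic representation `π'` of `PGL₂(𝔸_ℚ)`) such that
`L(1/2, π' ⊗ χ) = 0` for every quadratic Dirichlet character `χ`.  So `N_{π'}(x) = 0` for all `x`,
while `N(x) → ∞`, and `N_{π'}(x) / N(x)` does not tend to `1/2`.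

`u` is the dihedral form attached to the Hecke character
`α ↦ (α / √5) |α / α'|^{- i t}` (`t = π / (2 log φ)`) of the field `ℚ(√5)`.
-/

set_option autoImplicit false

open UpperHalfPlane MatrixGroups Filter Topology
open scoped ContDiff Laplacian

namespace Pool.Agent.Results.MP_17f4cb_nt.DihedralMaass

open Pool.Agent.Y672.DM

theorem result : ∃ (t : ℝ) (a : ℕ → ℂ) (u : ℂ → ℂ), 0 < t ∧ IsHeckeMaassCuspForm 25 t a u ∧
      (∀ z : ℍ, u (-1 / (25 * (z : ℂ))) = - u z) ∧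
      (∀ n : ℕ, 5 ∣ n → a n = 0) ∧
      (∀ (m : ℕ) [NeZero m] (χ : DirichletCharacter ℂ m), χ.IsPrimitive → χ ^ 2 = 1 →
        ∃ L : ℂ → ℂ, Differentiable ℂ L ∧
          (∀ s : ℂ, 1 < s.re → HasSum (fun n : ℕ => a n * χ n * (n : ℂ) ^ (-s)) (L s)) ∧
          (∀ s : ℂ, 1 < s.re → HasProd (fun p : Nat.Primes => (1 - a p * χ p * (p : ℂ) ^ (-s) +
            (if (p : ℕ) = 5 then 0 else χ p ^ 2 * (p : ℂ) ^ (-2 * s)))⁻¹) (L s)) ∧
          L (1 / 2) = 0) ∧
      (∀ x : ℝ, cntNonzero a x = 0) ∧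
      Tendsto cntAll atTop atTop ∧
      ¬ Tendsto (fun x : ℝ => (cntNonzero a x : ℝ) / (cntAll x : ℝ)) atTop (𝓝 (1 / 2)) :=
  main_thm

end Pool.Agent.Results.MP_17f4cb_nt.DihedralMaass
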